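import Mathlib
import Pool.Agent.H523R3.TransMain

set_option autoImplicit false

/-!
# MP_ff81d5_co, Q1: the maximal transversal ratios tend to one as the dimension tends to infinity

The definitions of `tauP`, `tauS` and of all notions they use are in `Pool.Agent.H523R3.TransDefs`.
-/

namespace Pool.Agent.Results.MP_ff81d5_co.Limit

open Pool.Agent.H523R3.Trans Filter Topology

/-- `τ^P_d = τ^S_d = 1` for all `d ≥ 4`, and therefore `lim τ^P_d = lim τ^S_d = 1` as `d → ∞`. -/
theorem result : (∀ d : ℕ, 4 ≤ d → tauP d = 1 ∧ tauS d = 1) ∧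
    Tendsto tauP atTop (𝓝 1) ∧ Tendsto tauS atTop (𝓝 1) := by
  refine ⟨fun d hd => ⟨tauP_eq_one hd, tauS_eq_one hd⟩, ?_, ?_⟩
  · apply tendsto_const_nhds.congr'
    filter_upwards [eventually_ge_atTop 4] with d hd
    exact (tauP_eq_one hd).symm
  · apply tendsto_const_nhds.congr'
    filter_upwards [eventually_ge_atTop 4] with d hd
    exact (tauS_eq_one hd).symm

end Pool.Agent.Results.MP_ff81d5_co.Limit
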