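import Mathlib
import Pool.Agent.Y362.TR2
import Pool.Agent.Y362.TR3

set_option autoImplicit false

/-!
# MP_ff81d5_co, Q2: the sequences of maximal transversal ratios are weakly increasing

The definitions of `tauP`, `tauS` and of all notions they use are in `Pool.Agent.H523R3.TransDefs`.
-/

namespace Pool.Agent.Results.MP_ff81d5_co.Monotone

open Pool.Agent.H523R3.Trans Pool.Agent.Y362.TR

/-- The sequences `τ^P_d` and `τ^S_d`, `d ≥ 2`, are weakly increasing. -/
theorem result : ∀ d e : ℕ, 2 ≤ d → d ≤ e → tauP d ≤ tauP e ∧ tauS d ≤ tauS e := by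
  intro d e hd hde
  rcases hde.eq_or_lt with rfl | hlt
  · exact ⟨le_rfl, le_rfl⟩
  rcases Nat.lt_or_ge e 4 with he | he
  · have h2 : d = 2 := by omega
    have h3 : e = 3 := by omega
    subst h2 h3
    exact ⟨tauP_two_le_half.trans half_le_tauP_three, tauS_two_le_half.trans half_le_tauS_three⟩
  · rw [tauP_eq_one he, tauS_eq_one he]
    exact ⟨tauP_le_one d (by omega), tauS_le_one d⟩

end Pool.Agent.Results.MP_ff81d5_co.Monotone
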